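import Pool.Agent.Lib.MP_e1f7e2_al.SU.Iface2

set_option autoImplicit false

/-!
Project SU3 (MP_e1f7e2_al): module FINAL.
-/

open MvPolynomial

namespace Pool.Agent.Lib.MP_e1f7e2_al.SU.H9

section

variable {K : Type*} [Field K]

/-! ### `PolyB` -/

lemma mem_polyB {B : ℕ} {Y : Fin 3 → MvPolynomial (Fin 3) K} {H : MvPolynomial (Fin 3) K} :
    H ∈ PolyB B Y ↔ ∃ p : MvPolynomial (Fin 3) K, p.totalDegree ≤ B ∧ aeval Y p = H := by
  unfold PolyB
  simp only [Submodule.mem_map, mem_restrictTotalDegree, AlgHom.toLinearMap_apply]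

lemma polyB_mono {B B' : ℕ} (h : B ≤ B') {Y : Fin 3 → MvPolynomial (Fin 3) K}
    {H : MvPolynomial (Fin 3) K} (hH : H ∈ PolyB B Y) : H ∈ PolyB B' Y := by
  rw [mem_polyB] at *
  obtain ⟨p, hp, e⟩ := hH
  exact ⟨p, hp.trans h, e⟩

lemma polyB_mul {B B' : ℕ} {Y : Fin 3 → MvPolynomial (Fin 3) K}
    {H H' : MvPolynomial (Fin 3) K} (hH : H ∈ PolyB B Y) (hH' : H' ∈ PolyB B' Y) :
    H * H' ∈ PolyB (B + B') Y := by
  rw [mem_polyB] at *
  obtain ⟨p, hp, e⟩ := hH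
  obtain ⟨p', hp', e'⟩ := hH'
  exact ⟨p * p', (totalDegree_mul _ _).trans (add_le_add hp hp'), by rw [map_mul, e, e']⟩

lemma polyB_C (c : K) (B : ℕ) (Y : Fin 3 → MvPolynomial (Fin 3) K) : C c ∈ PolyB B Y := by
  rw [mem_polyB]
  exact ⟨C c, by rw [totalDegree_C]; exact Nat.zero_le _, by rw [aeval_C, algebraMap_eq]⟩

lemma polyB_pow {B : ℕ} {Y : Fin 3 → MvPolynomial (Fin 3) K}
    {H : MvPolynomial (Fin 3) K} (hH : H ∈ PolyB B Y) (n : ℕ) : H ^ n ∈ PolyB (n * B) Y := by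
  induction n with
  | zero => rw [pow_zero, ← C_1]; exact polyB_C _ _ _
  | succ n ih =>
    rw [pow_succ]
    have := polyB_mul ih hH
    rwa [← Nat.succ_mul] at this

lemma polyB_Y (i : Fin 3) (Y : Fin 3 → MvPolynomial (Fin 3) K) : Y i ∈ PolyB 1 Y := by
  rw [mem_polyB]
  exact ⟨X i, by rw [totalDegree_X], aeval_X _ _⟩

lemma polyB_sp3 {Y : Fin 3 → MvPolynomial (Fin 3) K} {H : MvPolynomial (Fin 3) K}
    (h : H ∈ sp3 (Y 0) (Y 1) (Y 2)) : H ∈ PolyB 1 Y := by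
  have h0 : sp3 (Y 0) (Y 1) (Y 2) ≤ PolyB 1 Y := by
    unfold sp3
    rw [Submodule.span_le]
    intro x hx
    simp only [Set.mem_insert_iff, Set.mem_singleton_iff] at hx
    rcases hx with rfl | rfl | rfl | rfl
    · rw [← C_1]; exact polyB_C _ _ _
    · exact polyB_Y _ _
    · exact polyB_Y _ _
    · exact polyB_Y _ _
  exact h0 h

lemma polyB_ev {B a b : ℕ} {Y : Fin 3 → MvPolynomial (Fin 3) K} {G H : MvPolynomial (Fin 3) K}
    (P : MvPolynomial (Fin 2) K) (hG : G ∈ PolyB a Y) (hH : H ∈ PolyB b Y)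
    (hP : ∀ m ∈ P.support, m 0 * a + m 1 * b ≤ B) : ev P G H ∈ PolyB B Y := by
  unfold ev
  rw [aeval_def, eval₂_eq]
  refine Submodule.sum_mem _ (fun m hm => ?_)
  have e : (∏ i ∈ m.support, (![G, H] : Fin 2 → MvPolynomial (Fin 3) K) i ^ m i) =
      G ^ m 0 * H ^ m 1 := by
    rw [Finset.prod_subset (Finset.subset_univ m.support), Fin.prod_univ_two]
    · simp
    · intro i _ hi
      rw [Finsupp.notMem_support_iff.mp hi, pow_zero]
  rw [e, ← Algebra.smul_def]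
  refine Submodule.smul_mem _ _ ?_
  exact polyB_mono (hP m hm) (polyB_mul (polyB_pow hG _) (polyB_pow hH _))

lemma polyB_ev1 {B : ℕ} {Y : Fin 3 → MvPolynomial (Fin 3) K} {G H : MvPolynomial (Fin 3) K}
    (P : MvPolynomial (Fin 2) K) (hG : G ∈ PolyB 1 Y) (hH : H ∈ PolyB 1 Y)
    (hP : P.totalDegree ≤ B) : ev P G H ∈ PolyB B Y := by
  refine polyB_ev P hG hH (fun m hm => ?_)
  have h1 := le_totalDegree hm
  have h2 : (m.sum fun _ e => e) = m 0 + m 1 := by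
    rw [Finsupp.sum_fintype _ _ (fun _ => rfl), Fin.sum_univ_two]
  omega

/-! ### automorphisms -/

lemma map_ev' (T : MvPolynomial (Fin 3) K ≃ₐ[K] MvPolynomial (Fin 3) K) (P : MvPolynomial (Fin 2) K)
    (f g : MvPolynomial (Fin 3) K) : T (ev P f g) = ev P (T f) (T g) := by
  unfold ev
  have h : T (aeval ![f, g] P) = (T : MvPolynomial (Fin 3) K →ₐ[K] MvPolynomial (Fin 3) K)
      (aeval ![f, g] P) := rfl
  rw [h, ← AlgHom.comp_apply, comp_aeval]
  have e : (fun i => (T : MvPolynomial (Fin 3) K →ₐ[K] MvPolynomial (Fin 3) K)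
      ((![f, g] : Fin 2 → MvPolynomial (Fin 3) K) i)) = ![T f, T g] := by
    funext i; fin_cases i <;> rfl
  rw [e]

lemma map_C' (T : MvPolynomial (Fin 3) K ≃ₐ[K] MvPolynomial (Fin 3) K) (c : K) :
    T (C c) = C c := by
  rw [← algebraMap_eq]; exact T.commutes c

lemma symm_mem_sp3 (T : MvPolynomial (Fin 3) K ≃ₐ[K] MvPolynomial (Fin 3) K)
    {f g h F : MvPolynomial (Fin 3) K} (hF : F ∈ sp3 (T f) (T g) (T h)) : T.symm F ∈ sp3 f g h := by
  rw [mem_sp3] at *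
  obtain ⟨a, b, c, d, rfl⟩ := hF
  refine ⟨a, b, c, d, ?_⟩
  simp only [map_add, map_mul, map_C', AlgEquiv.symm_apply_apply]

lemma mem1 (f g h : MvPolynomial (Fin 3) K) : f ∈ sp3 f g h :=
  mem_sp3.mpr ⟨1, 0, 0, 0, by simp⟩
lemma mem2 (f g h : MvPolynomial (Fin 3) K) : g ∈ sp3 f g h :=
  mem_sp3.mpr ⟨0, 1, 0, 0, by simp⟩
lemma mem3 (f g h : MvPolynomial (Fin 3) K) : h ∈ sp3 f g h :=
  mem_sp3.mpr ⟨0, 0, 1, 0, by simp⟩

/-! ### good frames have the minimal degree sum -/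

lemma good_vals {w : Fin 3 → ℝ} (F : Facts K w) {f1 f2 f3 x : MvPolynomial (Fin 3) K}
    (hg : Good w f1 f2 f3) (hx : x ∈ sp3 f1 f2 f3) (h0 : 0 < dg w x) :
    dg w x = dg w f1 ∨ dg w x = dg w f2 ∨ dg w x = dg w f3 := by
  obtain ⟨a, b, c, d, rfl⟩ := mem_sp3.mp hx
  have p3 : 0 < dg w f3 := F.b.dpos _ _ _ hg.fr.rot'
  have h12 := hg.d12
  have h23 := hg.d23
  have hC : dg w (C d : MvPolynomial (Fin 3) K) = 0 := F.d.const d
  by_cases ha : a = 0
  · subst ha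
    by_cases hb : b = 0
    · subst hb
      by_cases hc : c = 0
      · subst hc
        simp only [map_zero, zero_mul, zero_add] at h0
        rw [hC] at h0
        exact absurd h0 (lt_irrefl _)
      · right; right
        simp only [map_zero, zero_mul, zero_add]
        rw [F.d.add_left _ _ (by rw [hC, F.d.Cmul _ _ hc]; exact p3), F.d.Cmul _ _ hc]
    · right; left
      simp only [map_zero, zero_mul, zero_add]
      have hc3 : dg w (C c * f3) ≤ dg w f3 := F.d.Cmul_le _ _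
      have hb2 := F.d.Cmul b f2 hb
      have e1 : dg w (C b * f2 + C c * f3) = dg w f2 := by
        rw [F.d.add_left _ _ (by rw [hb2]; exact lt_of_le_of_lt hc3 h23), hb2]
      rw [F.d.add_left _ _ (by rw [hC, e1]; linarith), e1]
  · left
    have hc3 : dg w (C c * f3) ≤ dg w f3 := F.d.Cmul_le _ _
    have hb2 : dg w (C b * f2) ≤ dg w f2 := F.d.Cmul_le _ _
    have ha1 := F.d.Cmul a f1 ha
    have e0 : dg w (C a * f1 + C b * f2) = dg w f1 := by
      rw [F.d.add_left _ _ (by rw [ha1]; exact lt_of_le_of_lt hb2 h12), ha1]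
    have e1 : dg w (C a * f1 + C b * f2 + C c * f3) = dg w f1 := by
      rw [F.d.add_left _ _ (by rw [e0]; linarith), e0]
    rw [F.d.add_left _ _ (by rw [hC, e1]; linarith), e1]

lemma good_unique {w : Fin 3 → ℝ} (F : Facts K w) {f1 f2 f3 g1 g2 g3 : MvPolynomial (Fin 3) K}
    (hf : Good w f1 f2 f3) (hg : Good w g1 g2 g3) (e : sp3 f1 f2 f3 = sp3 g1 g2 g3) :
    dg w f1 + dg w f2 + dg w f3 = dg w g1 + dg w g2 + dg w g3 := by
  have a1 := good_vals F hg (x := f1) (e ▸ mem1 _ _ _) (F.b.dpos _ _ _ hf.fr)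
  have a2 := good_vals F hg (x := f2) (e ▸ mem2 _ _ _) (F.b.dpos _ _ _ hf.fr.rot)
  have a3 := good_vals F hg (x := f3) (e ▸ mem3 _ _ _) (F.b.dpos _ _ _ hf.fr.rot')
  have h1 := hf.d12
  have h2 := hf.d23
  have h3 := hg.d12
  have h4 := hg.d23
  rcases a1 with a1 | a1 | a1 <;> rcases a2 with a2 | a2 | a2 <;> rcases a3 with a3 | a3 | a3 <;>
    first | (rw [a1, a2, a3]; done) | (exfalso; linarith)

lemma good_min {w : Fin 3 → ℝ} (F : Facts K w) (hG : GoodStatement K w)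
    {f1 f2 f3 g1 g2 g3 : MvPolynomial (Fin 3) K}
    (hf : Good w f1 f2 f3) (hg : Fr g1 g2 g3) (e : sp3 f1 f2 f3 = sp3 g1 g2 g3) :
    dg w f1 + dg w f2 + dg w f3 ≤ dg w g1 + dg w g2 + dg w g3 := by
  obtain ⟨k1, k2, k3, hk, ek, hle⟩ := hG g1 g2 g3 hg
  rw [good_unique F hf hk (e.trans ek.symm)]
  exact hle

/-! ### terminal case -/

lemma term_contra (hTerm : TermStatement K)
    {ψ : MvPolynomial (Fin 3) K ≃ₐ[K] MvPolynomial (Fin 3) K}
    (hψ : ψ ∉ TAut K (X : Fin 3 → MvPolynomial (Fin 3) K))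
    {Y : Fin 3 → MvPolynomial (Fin 3) K} (hY : Cos ψ Y) (i j : Fin 3) (hij : i ≠ j)
    (hi : dX (Y i) = 0) (hj : dX (Y j) = 0) : False := by
  obtain ⟨τ, hτ, h⟩ := hY
  have h1 : ψ * τ ∈ TAut K (X : Fin 3 → MvPolynomial (Fin 3) K) := by
    refine hTerm (ψ * τ) i j hij ?_ ?_
    · have : (ψ * τ) (X i) = Y i := (h i).symm
      rw [this]; exact hi
    · have : (ψ * τ) (X j) = Y j := (h j).symm
      rw [this]; exact hj
  apply hψ
  have h2 := mul_mem h1 (inv_mem hτ)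
  rwa [mul_inv_cancel_right] at h2

/-! ### the main argument -/

/-- the situation for a fixed large `N` -/
structure Sit (w : Fin 3 → ℝ) {K : Type*} [Field K]
    (ψ T : MvPolynomial (Fin 3) K ≃ₐ[K] MvPolynomial (Fin 3) K)
    (Y : Fin 3 → MvPolynomial (Fin 3) K) (E : Finset ℝ) (Dm B N : ℕ) (q : ℝ) : Prop where
  B6 : 6 ≤ B
  hE : ∀ H ∈ sp3 (Y 0) (Y 1) (Y 2), eX w ψ H ∈ E
  hD : ∀ H ∈ sp3 (Y 0) (Y 1) (Y 2), dX H ≤ Dm
  deg : ∀ H ∈ sp3 (Y 0) (Y 1) (Y 2), H ≠ 0 → dg w (T H) = eX w ψ H + N * dX H * q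
  min : ∀ Y' : Fin 3 → MvPolynomial (Fin 3) K, Cos ψ Y' → (∀ i, Y' i ∈ PolyB B Y) →
    dg w (T (Y 0)) + dg w (T (Y 1)) + dg w (T (Y 2)) ≤
    dg w (T (Y' 0)) + dg w (T (Y' 1)) + dg w (T (Y' 2))
  bnd : ∀ (F1 F2 F3 : MvPolynomial (Fin 3) K) (P : MvPolynomial (Fin 2) K)
      (d1 d2 d3 : ℕ) (e1 e2 e3 : ℝ),
      Fr F1 F2 F3 → d1 ≤ Dm → d2 ≤ Dm → d3 ≤ Dm → e1 ∈ E → e2 ∈ E → e3 ∈ E →
      dg w F1 = e1 + N * d1 * q → dg w F2 = e2 + N * d2 * q → dg w F3 = e3 + N * d3 * q →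
      ¬ (d1 = 0 ∧ d2 = 0) → dg w (F3 + ev P F1 F2) < dg w F3 →
      ∃ P' : MvPolynomial (Fin 2) K, P'.totalDegree ≤ B ∧ (dg w (F3 + ev P' F1 F2) < dg w F3 ∨
        dg w (F1 + ev P' F2 F3) < dg w F1 ∨ dg w (F2 + ev P' F1 F3) < dg w F2)

lemma strict_contra {w : Fin 3 → ℝ} (F : Facts K w) (hTerm : TermStatement K) (hCos : CosFacts K)
    {ψ T : MvPolynomial (Fin 3) K ≃ₐ[K] MvPolynomial (Fin 3) K}
    (hψ : ψ ∉ TAut K (X : Fin 3 → MvPolynomial (Fin 3) K))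
    {Y : Fin 3 → MvPolynomial (Fin 3) K} {E : Finset ℝ} {Dm B N : ℕ} {q : ℝ}
    (hY : Cos ψ Y) (S : Sit w ψ T Y E Dm B N q)
    {F1 F2 F3 : MvPolynomial (Fin 3) K} (hF : Fr F1 F2 F3)
    (hV : sp3 F1 F2 F3 = sp3 (T (Y 0)) (T (Y 1)) (T (Y 2)))
    (hsum : dg w F1 + dg w F2 + dg w F3 ≤
      dg w (T (Y 0)) + dg w (T (Y 1)) + dg w (T (Y 2)))
    (P : MvPolynomial (Fin 2) K) (hP : dg w (F3 + ev P F1 F2) < dg w F3) : False := by
  have hH := hCos.lift ψ Y T F1 F2 F3 hY hF hV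
  have m1 : T.symm F1 ∈ sp3 (Y 0) (Y 1) (Y 2) := symm_mem_sp3 T (hV ▸ mem1 _ _ _)
  have m2 : T.symm F2 ∈ sp3 (Y 0) (Y 1) (Y 2) := symm_mem_sp3 T (hV ▸ mem2 _ _ _)
  have m3 : T.symm F3 ∈ sp3 (Y 0) (Y 1) (Y 2) := symm_mem_sp3 T (hV ▸ mem3 _ _ _)
  have z : ∀ G : MvPolynomial (Fin 3) K, 0 < dg w G → T.symm G ≠ 0 := by
    intro G hG h0
    have : G = 0 := by
      have := congrArg T h0
      rwa [AlgEquiv.apply_symm_apply, map_zero] at this
    rw [this, F.d.zero] at hG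
    exact lt_irrefl _ hG
  have g1 := S.deg _ m1 (z F1 (F.b.dpos _ _ _ hF))
  have g2 := S.deg _ m2 (z F2 (F.b.dpos _ _ _ hF.rot))
  have g3 := S.deg _ m3 (z F3 (F.b.dpos _ _ _ hF.rot'))
  rw [AlgEquiv.apply_symm_apply] at g1 g2 g3
  by_cases hd : dX (T.symm F1) = 0 ∧ dX (T.symm F2) = 0
  · exact term_contra hTerm hψ hH 0 1 (by decide) hd.1 hd.2
  obtain ⟨P', hP', alt⟩ := S.bnd F1 F2 F3 P _ _ _ _ _ _ hF (S.hD _ m1) (S.hD _ m2) (S.hD _ m3)
    (S.hE _ m1) (S.hE _ m2) (S.hE _ m3) g1 g2 g3 hd hP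
  have b1 := polyB_sp3 m1
  have b2 := polyB_sp3 m2
  have b3 := polyB_sp3 m3
  have hB1 : 1 ≤ B := le_trans (by norm_num) S.B6
  rcases alt with alt | alt | alt
  · have hc := hCos.el2 ψ _ _ _ P' hH
    have h := S.min _ hc (by
      intro i
      fin_cases i
      · exact polyB_mono hB1 b1
      · exact polyB_mono hB1 b2
      · exact Submodule.add_mem _ (polyB_mono hB1 b3) (polyB_ev1 P' b1 b2 hP'))
    simp only [Matrix.cons_val_zero, Matrix.cons_val_one, Matrix.cons_val, map_add, map_ev',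
      AlgEquiv.apply_symm_apply] at h
    linarith
  · have hc := hCos.el0 ψ _ _ _ P' hH
    have h := S.min _ hc (by
      intro i
      fin_cases i
      · exact Submodule.add_mem _ (polyB_mono hB1 b1) (polyB_ev1 P' b2 b3 hP')
      · exact polyB_mono hB1 b2
      · exact polyB_mono hB1 b3)
    simp only [Matrix.cons_val_zero, Matrix.cons_val_one, Matrix.cons_val, map_add, map_ev',
      AlgEquiv.apply_symm_apply] at h
    linarith
  · have hc := hCos.el1 ψ _ _ _ P' hH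
    have h := S.min _ hc (by
      intro i
      fin_cases i
      · exact polyB_mono hB1 b1
      · exact Submodule.add_mem _ (polyB_mono hB1 b2) (polyB_ev1 P' b1 b3 hP')
      · exact polyB_mono hB1 b3)
    simp only [Matrix.cons_val_zero, Matrix.cons_val_one, Matrix.cons_val, map_add, map_ev',
      AlgEquiv.apply_symm_apply] at h
    linarith

lemma kmove_contra {w : Fin 3 → ℝ} (F : Facts K w) (hCos : CosFacts K) (hG : GoodStatement K w)
    (hK : KFactStatement K w)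
    {ψ T : MvPolynomial (Fin 3) K ≃ₐ[K] MvPolynomial (Fin 3) K}
    {Y : Fin 3 → MvPolynomial (Fin 3) K} {E : Finset ℝ} {Dm B N : ℕ} {q : ℝ}
    (hY : Cos ψ Y) (hfrY : Fr (T (Y 0)) (T (Y 1)) (T (Y 2))) (S : Sit w ψ T Y E Dm B N q)
    {F1 F2 F3 : MvPolynomial (Fin 3) K} (a : K) (P : MvPolynomial (Fin 2) K) (γ : ℝ)
    (hk : KMove w F1 F2 F3 a P γ)
    (hV : sp3 F1 F2 F3 = sp3 (T (Y 0)) (T (Y 1)) (T (Y 2))) : False := by
  have kf := hK _ _ _ _ _ _ hk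
  have hsum := good_min F hG kf.good hfrY hV
  have hH := hCos.lift ψ Y T F1 F2 F3 hY hk.fr hV
  have b1 := polyB_sp3 (symm_mem_sp3 T (f := Y 0) (g := Y 1) (h := Y 2) (hV ▸ mem1 F1 F2 F3))
  have b2 := polyB_sp3 (symm_mem_sp3 T (f := Y 0) (g := Y 1) (h := Y 2) (hV ▸ mem2 F1 F2 F3))
  have b3 := polyB_sp3 (symm_mem_sp3 T (f := Y 0) (g := Y 1) (h := Y 2) (hV ▸ mem3 F1 F2 F3))
  have hc1 := hCos.el0 ψ _ _ _ (C a * X 1 ^ 2) hH
  have e1 : ev (C a * X 1 ^ 2) (T.symm F2) (T.symm F3) = C a * T.symm F3 ^ 2 := by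
    rw [ev_mul, ev_pow, ev_C, ev_X1]
  rw [e1] at hc1
  have hc2 := hCos.el2 ψ _ _ _ P hc1
  have b1' : T.symm F1 + C a * T.symm F3 ^ 2 ∈ PolyB 2 Y := by
    refine Submodule.add_mem _ (polyB_mono (by norm_num) b1) ?_
    have := polyB_mul (polyB_C a 0 Y) (polyB_pow b3 2)
    exact polyB_mono (by norm_num) this
  have h := S.min _ hc2 (by
      intro i
      fin_cases i
      · exact polyB_mono (le_trans (by norm_num) S.B6) b1'
      · exact polyB_mono (le_trans (by norm_num) S.B6) b2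
      · refine Submodule.add_mem _ (polyB_mono (le_trans (by norm_num) S.B6) b3) ?_
        refine polyB_ev P b1' b2 (fun m hm => ?_)
        have := kf.bd m hm
        have := S.B6
        omega)
  simp only [Matrix.cons_val_zero, Matrix.cons_val_one, Matrix.cons_val, map_add, map_ev',
    AlgEquiv.apply_symm_apply, map_mul, map_pow, map_C'] at h
  have := kf.lt
  linarith

/-- module FINAL -/
theorem final {w : Fin 3 → ℝ} (F : Facts K w) (hG : GoodStatement K w) (hK : KFactStatement K w)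
    (hT : TameStatement K w) (hA : AsymStatement K w) (hFV : FinvalStatement K w)
    (hCh : ChoiceStatement K w) (hCos : CosFacts K) (hB : BndStatement K w)
    (hM : MiniStatement K w) (hL : LexcStatement K w) (hTerm : TermStatement K) :
    FinalStatement K := by
  intro ψ hψ
  obtain ⟨Y, hY⟩ := hM ψ
  have hfd : FiniteDimensional K (sp3 (Y 0) (Y 1) (Y 2)) := by
    unfold sp3
    exact FiniteDimensional.span_of_finite K (Set.toFinite _)
  obtain ⟨hfin, Dm, hDm⟩ := hFV ψ (sp3 (Y 0) (Y 1) (Y 2)) hfd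
  obtain ⟨f, hf, hq, hE⟩ := hCh ψ hfin.toFinset
  obtain ⟨B1, N1, hB1⟩ := hB hfin.toFinset Dm (dg w (ψ.symm f)) hq (by
    intro e he
    rw [Set.Finite.mem_toFinset] at he
    obtain ⟨H, _, rfl⟩ := he
    exact F.d.nn _) hE
  obtain ⟨N2, hN2⟩ := hA ψ f hf hq (sp3 (Y 0) (Y 1) (Y 2)) hfd
  obtain ⟨N3, hN3⟩ := hL ψ Y f (max B1 6) hY hf hq
  obtain ⟨N4, hN4⟩ := exists_nat_gt (sg w / dg w (ψ.symm f))
  rw [div_lt_iff₀ hq] at hN4
  refine ⟨f, hf, N1 + N2 + N3 + N4, fun N hN φ hφ hmem => ?_⟩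
  set T : MvPolynomial (Fin 3) K ≃ₐ[K] MvPolynomial (Fin 3) K := φ.trans ψ.symm with hTdef
  have hTH : ∀ H, ψ.symm (φ H) = T H := fun H => rfl
  have hYc := hY.1
  obtain ⟨τ, hτ, hYτ⟩ := hYc
  have hfrY : Fr (T (Y 0)) (T (Y 1)) (T (Y 2)) := hCos.fr ψ Y T hY.1
  have hred : Red w (sp3 (T (Y 0)) (T (Y 1)) (T (Y 2))) := by
    have h := hT (ψ⁻¹ * φ * ψ * τ) (mul_mem hmem hτ)
    rw [hYτ 0, hYτ 1, hYτ 2]
    exact h
  have S : Sit w ψ T Y hfin.toFinset Dm (max B1 6) N (dg w (ψ.symm f)) := by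
    refine ⟨le_max_right _ _, ?_, hDm, ?_, ?_, ?_⟩
    · intro H hH
      rw [Set.Finite.mem_toFinset]
      exact ⟨H, hH, rfl⟩
    · intro H hH h0
      exact hN2 N (by omega) φ hφ H hH h0
    · intro Y' hY' hm
      exact hN3 N (by omega) φ hφ Y' hY' hm
    · intro F1 F2 F3 P d1 d2 d3 e1 e2 e3 a1 a2 a3 a4 a5 a6 a7 a8 a9 a10 a11 a12
      obtain ⟨P', hP', alt⟩ := hB1 N (by omega) F1 F2 F3 P d1 d2 d3 e1 e2 e3 a1 a2 a3 a4 a5 a6
        a7 a8 a9 a10 a11 a12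
      exact ⟨P', hP'.trans (le_max_left _ _), alt⟩
  generalize hV : sp3 (T (Y 0)) (T (Y 1)) (T (Y 2)) = V at hred
  cases hred with
  | base F1 F2 F3 hF hd =>
    have hH := hCos.lift ψ Y T F1 F2 F3 hY.1 hF hV.symm
    have m1 : T.symm F1 ∈ sp3 (Y 0) (Y 1) (Y 2) := symm_mem_sp3 T (hV ▸ mem1 F1 F2 F3)
    have m2 : T.symm F2 ∈ sp3 (Y 0) (Y 1) (Y 2) := symm_mem_sp3 T (hV ▸ mem2 F1 F2 F3)
    have z : ∀ G : MvPolynomial (Fin 3) K, 0 < dg w G → T.symm G ≠ 0 := by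
      intro G hG h0
      have : G = 0 := by
        have := congrArg T h0
        rwa [AlgEquiv.apply_symm_apply, map_zero] at this
      rw [this, F.d.zero] at hG
      exact lt_irrefl _ hG
    have p1 := F.b.dpos _ _ _ hF
    have p2 := F.b.dpos _ _ _ hF.rot
    have p3 := F.b.dpos _ _ _ hF.rot'
    have g1 := S.deg _ m1 (z F1 p1)
    have g2 := S.deg _ m2 (z F2 p2)
    rw [AlgEquiv.apply_symm_apply] at g1 g2
    have e1 : 0 ≤ eX w ψ (T.symm F1) := F.d.nn _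
    have e2 : 0 ≤ eX w ψ (T.symm F2) := F.d.nn _
    have hNq : sg w < N * dg w (ψ.symm f) := by
      refine hN4.trans_le (mul_le_mul_of_nonneg_right ?_ hq.le)
      exact_mod_cast (by omega : N4 ≤ N)
    have big : ∀ d : ℕ, d ≠ 0 → (N : ℝ) * dg w (ψ.symm f) ≤ N * d * dg w (ψ.symm f) := by
      intro d hd
      have h1 : (1 : ℝ) ≤ d := by exact_mod_cast Nat.one_le_iff_ne_zero.mpr hd
      have h2 : (0 : ℝ) ≤ N * dg w (ψ.symm f) := mul_nonneg (Nat.cast_nonneg _) hq.le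
      nlinarith
    refine term_contra hTerm hψ hH 0 1 (by decide) ?_ ?_
    · by_contra hne
      have := big _ hne
      change dX (T.symm F1) ≠ 0 at hne
      have := big _ hne
      linarith
    · by_contra hne
      change dX (T.symm F2) ≠ 0 at hne
      have := big _ hne
      linarith
  | e1 F1 F2 F3 Q hF hd hr =>
    have hsum := good_min F hG hF hfrY hV.symm
    exact strict_contra F hTerm hCos hψ hY.1 S hF.fr.rot ((sp3_rot _ _ _).symm.trans hV.symm)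
      (by linarith) Q hd
  | e2 F1 F2 F3 P hF hd hr =>
    have hsum := good_min F hG hF hfrY hV.symm
    exact strict_contra F hTerm hCos hψ hY.1 S hF.fr.swap23
      ((sp3_swap23 _ _ _).symm.trans hV.symm) (by linarith) P hd
  | e3 F1 F2 F3 P hF hd hr =>
    have hsum := good_min F hG hF hfrY hV.symm
    exact strict_contra F hTerm hCos hψ hY.1 S hF.fr hV.symm (by linarith) P hd
  | k F1 F2 F3 a P γ hk hr =>
    exact kmove_contra F hCos hG hK hY.1 hfrY S a P γ hk hV.symm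

end

end Pool.Agent.Lib.MP_e1f7e2_al.SU.H9
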