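import Pool.Agent.Lib.MP_e1f7e2_al.SU.H98.Deg
import Pool.Agent.Lib.MP_e1f7e2_al.SU.H98.Su
import Pool.Agent.Lib.MP_e1f7e2_al.SU.H98.Sulow
import Pool.Agent.Lib.MP_e1f7e2_al.SU.H15.T2m
import Pool.Agent.Lib.MP_e1f7e2_al.SU.H15.Vdg
import Pool.Agent.Lib.MP_e1f7e2_al.SU.H15.Vec
import Pool.Agent.Lib.MP_e1f7e2_al.SU.H1.Brf
import Pool.Agent.Lib.MP_e1f7e2_al.SU.H1.Choice
import Pool.Agent.Lib.MP_e1f7e2_al.SU.H25.Bnd
import Pool.Agent.Lib.MP_e1f7e2_al.SU.H25.Inv
import Pool.Agent.Lib.MP_e1f7e2_al.SU.H41.Nb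
import Pool.Agent.Lib.MP_e1f7e2_al.SU.H36.Kfact
import Pool.Agent.Lib.MP_e1f7e2_al.SU.H36.Knb
import Pool.Agent.Lib.MP_e1f7e2_al.SU.H36.P23
import Pool.Agent.Lib.MP_e1f7e2_al.SU.H36.Sq
import Pool.Agent.Lib.MP_e1f7e2_al.SU.H36.T3
import Pool.Agent.Lib.MP_e1f7e2_al.SU.H42.Good
import Pool.Agent.Lib.MP_e1f7e2_al.SU.H42.Tame
import Pool.Agent.Lib.MP_e1f7e2_al.SU.H47.Autfr
import Pool.Agent.Lib.MP_e1f7e2_al.SU.H47.Cos
import Pool.Agent.Lib.MP_e1f7e2_al.SU.H49.Coef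
import Pool.Agent.Lib.MP_e1f7e2_al.SU.H49.Genw
import Pool.Agent.Lib.MP_e1f7e2_al.SU.H49.Phi
import Pool.Agent.Lib.MP_e1f7e2_al.SU.H52.Asym
import Pool.Agent.Lib.MP_e1f7e2_al.SU.H52.BstarMain
import Pool.Agent.Lib.MP_e1f7e2_al.SU.H62.D22
import Pool.Agent.Lib.MP_e1f7e2_al.SU.H7.P12
import Pool.Agent.Lib.MP_e1f7e2_al.SU.H7.P21
import Pool.Agent.Lib.MP_e1f7e2_al.SU.H72.X
import Pool.Agent.Lib.MP_e1f7e2_al.SU.H72.Y
import Pool.Agent.Lib.MP_e1f7e2_al.SU.H84.D12
import Pool.Agent.Lib.MP_e1f7e2_al.SU.H84.D23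
import Pool.Agent.Lib.MP_e1f7e2_al.SU.H84.N964
import Pool.Agent.Lib.MP_e1f7e2_al.SU.H99.P22
import Pool.Agent.Lib.MP_e1f7e2_al.SU.H30.Jvdk
import Pool.Agent.Lib.MP_e1f7e2_al.SU.H30.Term
import Pool.Agent.Lib.MP_e1f7e2_al.SU.H84.P13
import Pool.Agent.Lib.MP_e1f7e2_al.SU.H84.P31
import Pool.Agent.Lib.MP_e1f7e2_al.SU.H65.P33
import Pool.Agent.Lib.MP_e1f7e2_al.SU.H65.Step
import Pool.Agent.Lib.MP_e1f7e2_al.SU.H9.Final

set_option autoImplicit false

/-!
Project SU3 (MP_e1f7e2_al): assembly of all modules.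
-/

open MvPolynomial

namespace Pool.Agent.Lib.MP_e1f7e2_al.SU.H9

section

variable {K : Type*} [Field K] [CharZero K] {w : Fin 3 → ℝ}

theorem facts (hw : Gen w) : Facts K w :=
  ⟨H98.deg hw, H15.vecFacts (H98.deg hw), H1.brf hw (H98.deg hw) (H15.vecFacts (H98.deg hw)),
    H15.vdgFacts (H98.deg hw)⟩

theorem suAll (hw : Gen w) : SuAll K w :=
  ⟨H98.su hw (facts hw), H98.sulow, H15.t2m (facts hw)⟩

theorem kfact (hw : Gen w) : KFactStatement K w := H36.kfact hw (facts hw) (suAll hw)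

theorem inv (hw : Gen w) : InvStatement K w := H25.inv (facts hw) (kfact hw)

theorem n964 (hw : Gen w) : N964Statement K w := H84.n964 (facts hw) (suAll hw)

theorem d23 (hw : Gen w) : D23Statement K w := H84.d23 (facts hw) (suAll hw)

theorem d12 (hw : Gen w) : D12Statement K w := H84.d12 (facts hw) (suAll hw)

theorem t3 (hw : Gen w) : T3Statement K w := H36.t3 hw (facts hw) (suAll hw)

theorem y (hw : Gen w) : YStatement K w := H72.y (facts hw) (suAll hw) (inv hw) (kfact hw)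

theorem x (hw : Gen w) : XStatement K w :=
  H72.x (facts hw) (suAll hw) (inv hw) (kfact hw) (n964 hw) (y hw) (d23 hw)

theorem bstar (hw : Gen w) : BstarStatement K w :=
  H52.bstar (facts hw) (suAll hw) (inv hw) (kfact hw)

theorem d22 (hw : Gen w) : D22Statement K w :=
  H62.d22 (facts hw) (suAll hw) (inv hw) (kfact hw) (bstar hw)

theorem p12 (hw : Gen w) : P12Statement K w := H7.p12 (facts hw) (suAll hw) H36.sqi H36.sqii (d12 hw)

theorem p21 (hw : Gen w) : P21Statement K w := H7.p21 (facts hw) (suAll hw) H36.sqi H36.sqii (d12 hw)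

theorem p22 (hw : Gen w) : P22Statement K w :=
  H99.p22 (facts hw) (suAll hw) (d22 hw) (p21 hw) (p12 hw)

theorem knb (hw : Gen w) : KnbStatement K w :=
  H36.knb (facts hw) (suAll hw) (H41.nb (facts hw).d) (kfact hw)

theorem p13 (hw : Gen w) : P13Statement K w :=
  H84.p13 (facts hw) H36.sqii (t3 hw) (n964 hw) (y hw) (bstar hw)

theorem p31 (hw : Gen w) : P31Statement K w :=
  H84.p31 (facts hw) H36.sqi (t3 hw) (n964 hw) (x hw)

theorem p23 (hw : Gen w) : P23Statement K w :=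
  H36.p23 (facts hw) (t3 hw) (d23 hw) (p21 hw) (p13 hw)

theorem p32 (hw : Gen w) : P32Statement K w :=
  H65.p32 (facts hw) (t3 hw) (d23 hw) (p31 hw) (p12 hw)

theorem p33 (hw : Gen w) : P33Statement K w := H65.p33 (facts hw) (t3 hw) (p31 hw) (p13 hw)

theorem step (hw : Gen w) : StepStatement K w :=
  H65.step (facts hw) (inv hw) (H41.nb (facts hw).d) (knb hw) (p12 hw) (p21 hw) (p13 hw) (p31 hw)
    (p23 hw) (p32 hw) (p22 hw) (p33 hw)

/-- reduction theorem: the main claim -/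
theorem main (hw : Gen w) : MainStatement K w :=
  H42.main (facts hw) (H42.good (facts hw)) (step hw)

/-- reduction theorem: the vertices of tame automorphisms are reducible -/
theorem tame (hw : Gen w) : TameStatement K w := H42.tame (facts hw) (main hw) H47.autfr

/-- the terminal case -/
theorem term (K : Type*) [Field K] [CharZero K] : TermStatement K := by
  obtain ⟨w, hw⟩ := H49.genw
  exact H30.term (H30.jvdk hw (facts hw) (suAll hw).su (suAll hw).low H47.autfr) H49.coef H47.autfr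

/-- for a wild `ψ` there is `f ∈ K[X 1, X 2]` such that all `ψ⁻¹ φ_N ψ`, `N` large,
`φ_N = (X 0 + f ^ N, X 1, X 2)`, are wild -/
theorem finalTheorem (K : Type*) [Field K] [CharZero K] : FinalStatement K := by
  obtain ⟨w, hw⟩ := H49.genw
  exact final (facts hw) (H42.good (facts hw)) (kfact hw) (tame hw) (H52.asym (facts hw) H49.coef)
    (H52.finval (facts hw) H49.coef) (H1.choice hw (H98.deg hw)) H47.cos
    (H25.bnd (facts hw) (suAll hw)) (H52.mini (facts hw))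
    (H52.lexc (facts hw) (H52.asym (facts hw) H49.coef)) (term K)

end

end Pool.Agent.Lib.MP_e1f7e2_al.SU.H9
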